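import Pool.Agent.TH738.NR.Below
import Pool.Agent.TH738.NR.Image

set_option autoImplicit false

/-! Problem MP_4b35b9_lc, question Q1, answered in the negative: there is a hyperarithmetic real
`X` such that every real of the same Turing degree as `X` is NCR, and the degree of `X` has no
self-modulus.

The real `X` is a noncomputable member of a countable effectively closed class such that every
function computable from `X` is bounded by a computable function. -/

namespace Pool.Agent.Results.MP_4b35b9_lc.NoSelfModulus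

open MeasureTheory
open Pool.Agent.TH738.NR
open Pool.Agent.Helper743 (TR TR_iff)

/-- The characteristic function of a real, as a partial function. -/
def ch (X : ℕ → Bool) : ℕ →. ℕ := fun n => Part.some (X n).toNat

/-- The real `Y` is Turing reducible to the real `X`. -/
def Below (Y X : ℕ → Bool) : Prop := TuringReducible (ch Y) (ch X)

/-- The function `f` is Turing reducible to the real `X`. -/
def Computes (X : ℕ → Bool) (f : ℕ → ℕ) : Prop :=
  TuringReducible (fun n => Part.some (f n) : ℕ →. ℕ) (ch X)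

/-- The real `X` is Turing reducible to the function `g`. -/
def ComputedBy (X : ℕ → Bool) (g : ℕ → ℕ) : Prop :=
  TuringReducible (ch X) (fun n => Part.some (g n) : ℕ →. ℕ)

/-- The basic cylinder of a string. -/
def Cyl (σ : List Bool) : Set (ℕ → Bool) := {Z | ∀ (i : ℕ) (h : i < σ.length), Z i = σ[i]}

/-- The real `R` represents `μ`: it computes, uniformly in the string `σ` and in `j`, a dyadic
rational `g(σ, j) / 2 ^ j` at distance at most `2 ^ (-j)` from `μ [σ]`. -/
def Represents (R : ℕ → Bool) (μ : Measure (ℕ → Bool)) : Prop :=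
  ∃ g : ℕ → ℕ, Computes R g ∧ ∀ (σ : List Bool) (j : ℕ),
    |(g (Nat.pair (Encodable.encode σ) j) : ℝ) / 2 ^ j - μ.real (Cyl σ)| ≤ 1 / 2 ^ j

/-- The sets `U n` are a Martin-Löf `μ`-test relative to `R`: they are the unions of the cylinders
given by sets of strings that are uniformly computably enumerable in `R`, and
`μ (U n) ≤ 2 ^ (-n)`. -/
def IsTest (R : ℕ → Bool) (μ : Measure (ℕ → Bool)) (U : ℕ → Set (ℕ → Bool)) : Prop :=
  (∃ W : ℕ →. ℕ, TuringReducible W (ch R) ∧ ∀ n : ℕ, U n =
    {Z | ∃ σ : List Bool, (W (Nat.pair n (Encodable.encode σ))).Dom ∧ Z ∈ Cyl σ}) ∧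
  ∀ n : ℕ, μ.real (U n) ≤ (1 / 2) ^ n

/-- `X` is `μ`-random: it passes all Martin-Löf `μ`-tests relative to some representation
of `μ`. -/
def Random (μ : Measure (ℕ → Bool)) (X : ℕ → Bool) : Prop :=
  ∃ R : ℕ → Bool, Represents R μ ∧ ∀ U : ℕ → Set (ℕ → Bool), IsTest R μ U → ∃ n, X ∉ U n

/-- `X` is not random for any continuous probability measure. (The σ-algebra on `ℕ → Bool` is the
product σ-algebra, which is the Borel σ-algebra of Cantor space.) -/
def NCR (X : ℕ → Bool) : Prop :=
  ∀ μ : Measure (ℕ → Bool), IsProbabilityMeasure μ → (∀ Z : ℕ → Bool, μ {Z} = 0) → ¬ Random μ X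

/-- Lightface `Σ¹₁` sets of natural numbers: `S n` holds iff there is a function `f : ℕ → ℕ` such
that a computable predicate holds of `n` and of every finite initial segment of `f`. -/
def Sigma11 (S : ℕ → Prop) : Prop :=
  ∃ M : ℕ × List ℕ → Prop, ComputablePred M ∧
    ∀ n, S n ↔ ∃ f : ℕ → ℕ, ∀ m, M (n, (List.range m).map f)

/-- Hyperarithmetic (`Δ¹₁`) reals. -/
def Hyperarithmetic (X : ℕ → Bool) : Prop :=
  Sigma11 (fun n => X n = true) ∧ Sigma11 (fun n => ¬ X n = true)

/-- `f` is a modulus for `X`: every function that dominates `f` computes `X`. -/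
def IsModulus (f : ℕ → ℕ) (X : ℕ → Bool) : Prop :=
  ∀ g : ℕ → ℕ, (∀ n, f n ≤ g n) → ComputedBy X g

/-- `X` computes a modulus for `X`. -/
def HasSelfModulus (X : ℕ → Bool) : Prop := ∃ f : ℕ → ℕ, Computes X f ∧ IsModulus f X

lemma below_iff {Y X : ℕ → Bool} : Below Y X ↔ TR (orc Y) (orc X) := TR_iff.symm

lemma computes_iff {X : ℕ → Bool} {f : ℕ → ℕ} : Computes X f ↔ TR f (orc X) := TR_iff.symm

lemma computedBy_iff {X : ℕ → Bool} {g : ℕ → ℕ} : ComputedBy X g ↔ TR (orc X) g := TR_iff.symm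

lemma mem_Cyl {σ : List Bool} {Z : ℕ → Bool} : Z ∈ Cyl σ ↔ bp Z σ.length = σ := by
  constructor
  · intro h
    unfold bp
    apply List.ext_getElem
    · simp
    · intro i h1 h2
      simp only [List.getElem_map, List.getElem_range]
      exact h i h2
  · intro h i hi
    exact Sb.get h hi

lemma Cyl_eq (σ : List Bool) : Cyl σ = cyl σ := by
  ext Z
  exact mem_Cyl

/-- reals computable from the constructed real are NCR -/
lemma ncr {X : ℕ → Bool} (h : Good X) {Y : ℕ → Bool} (hY : Below Y X) : NCR Y := by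
  rintro μ hμ hc ⟨R, ⟨g, hg, hap⟩, hT⟩
  obtain ⟨OK, h1, h2, h3, h4⟩ := h.image (below_iff.1 hY)
  obtain ⟨W, h5, h6, h7⟩ := ncr_core OK h1 h2 h3 h4 μ hc (computes_iff.1 hg)
    (fun σ j => by rw [← Cyl_eq]; exact hap σ j)
  let U : ℕ → Set (ℕ → Bool) := fun n =>
    {Z | ∃ σ : List Bool, (W (Nat.pair n (Encodable.encode σ))).Dom ∧ Z ∈ Cyl σ}
  have hU : ∀ n, U n = {Z | ∃ k, (W (Nat.pair n (Encodable.encode (bp Z k)))).Dom} := by
    intro n
    ext Z
    constructor
    · rintro ⟨σ, h8, h9⟩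
      rw [mem_Cyl] at h9
      exact ⟨σ.length, by rw [h9]; exact h8⟩
    · rintro ⟨k, hk⟩
      exact ⟨bp Z k, hk, mem_Cyl.2 (by rw [bp_length])⟩
  have htest : IsTest R μ U := by
    refine ⟨⟨W, RecursiveIn.iff_nat.2 h5, fun n => rfl⟩, fun n => ?_⟩
    rw [hU]
    exact h6 n
  obtain ⟨n, hn⟩ := hT U htest
  apply hn
  rw [hU]
  exact h7 n

lemma hyp {X : ℕ → Bool} (h : Good X) : Hyperarithmetic X := by
  refine ⟨⟨fun q => Mx true q.1 q.2, ?_, fun n => h.sigma true n⟩,
    ⟨fun q => Mx false q.1 q.2, ?_, fun n => ?_⟩⟩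
  · obtain ⟨i, hi⟩ := Mx_p true
    exact ⟨i, hi.to_comp⟩
  · obtain ⟨i, hi⟩ := Mx_p false
    exact ⟨i, hi.to_comp⟩
  · have h1 : (¬ X n = true) ↔ X n = false := by rw [Bool.not_eq_true]
    exact h1.trans (h.sigma false n)

/-- Question Q1 has a negative answer: there is a hyperarithmetic real `X` such that all reals of
the Turing degree of `X` are NCR and none of them has a self-modulus. -/
theorem result : ∃ X : ℕ → Bool, Hyperarithmetic X ∧
    ∀ Y : ℕ → Bool, Below Y X → Below X Y → NCR Y ∧ ¬ HasSelfModulus Y := by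
  obtain ⟨X, h⟩ := exists_good
  refine ⟨X, hyp h, fun Y h1 h2 => ⟨ncr h h1, ?_⟩⟩
  rintro ⟨f, h3, h4⟩
  exact h.no_modulus (below_iff.1 h1) (below_iff.1 h2)
    ⟨f, computes_iff.1 h3, fun g hg => computedBy_iff.1 (h4 g hg)⟩

end Pool.Agent.Results.MP_4b35b9_lc.NoSelfModulus
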